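import Pool.Agent.helper60.DA.SpecV

set_option autoImplicit false

namespace Pool.Agent.helper60.DA

open Polynomial Finset Pool.Agent.helper60.DK

theorem E14_aux1 (h : ℕ) (t : ℕ → ℤ) : (Hh h t).natDegree ≤ 3 * h := by
  unfold Hh
  apply natDegree_sum_le_of_forall_le
  intro k hk
  have hk' := mem_range.mp hk
  refine le_trans (natDegree_C_mul_le _ _) ?_
  refine le_trans natDegree_mul_le ?_
  have h1 : (X ^ (2 * k) : ℤ[X]).natDegree ≤ 2 * k := natDegree_X_pow_le _
  have h2 : ((1 + X) ^ (3 * (h - k)) : ℤ[X]).natDegree ≤ 3 * (h - k) := by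
    refine le_trans natDegree_pow_le ?_
    have h3 : (1 + X : ℤ[X]).natDegree ≤ 1 := by
      rw [show (1 + X : ℤ[X]) = X + C 1 by rw [C_1]; ring]
      exact le_of_eq (natDegree_X_add_C 1)
    calc 3 * (h - k) * (1 + X : ℤ[X]).natDegree ≤ 3 * (h - k) * 1 := Nat.mul_le_mul_left _ h3
      _ = _ := mul_one _
  omega

theorem E14_aux2 (p : ℕ) : (St p).natDegree ≤ 3 * hh p := by
  unfold St
  apply natDegree_sum_le_of_forall_le
  intro k hk
  have hk' := mem_range.mp hk
  refine le_trans (natDegree_C_mul_le _ _) ?_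
  refine le_trans (natDegree_X_pow_le _) ?_
  omega

theorem E14_aux3 (p : ℕ) [hp : Fact p.Prime] (V : ℤ[X]) (hV : IsV p V) :
    V.natDegree ≤ 3 * hh p := by
  have h1 : C (p : ℤ) * V = C ((16 : ℤ) ^ hh p) * St p - S1 p := by
    unfold IsV at hV
    rw [hV]; ring
  have h2 : (C (p : ℤ) * V).natDegree = V.natDegree :=
    natDegree_C_mul (by exact_mod_cast hp.out.ne_zero)
  rw [← h2, h1]
  refine le_trans (natDegree_sub_le _ _) (max_le ?_ ?_)
  · exact le_trans (natDegree_C_mul_le _ _) (E14_aux2 p)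
  · exact E14_aux1 _ _

theorem E14_aux4 {F : Type} [Field F] (h4 : (4 : F) ≠ 0) (d : ℕ) (f : F[X])
    (hf : f.natDegree ≤ d) : (hm d f).eval 0 = 4 ^ d * f.eval (-1 / 4) := by
  rw [eval_eq_sum_range' (Nat.lt_succ_of_le hf)]
  unfold hm
  rw [eval_finsetSum, mul_sum]
  refine sum_congr rfl fun i hi => ?_
  have hi' : i ≤ d := by
    rw [mem_range] at hi; omega
  simp only [eval_mul, eval_C, eval_pow, eval_sub, eval_X, eval_one, eval_ofNat]
  have e : (4 : F) ^ d = 4 ^ (d - i) * 4 ^ i := by rw [← pow_add, Nat.sub_add_cancel hi']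
  rw [e, div_pow]
  have h4i : (4 : F) ^ i ≠ 0 := pow_ne_zero _ h4
  field_simp
  ring

theorem E14 (hSTAR : STAR_stmt) (hHW : HW_stmt) (hPHV : PHV_stmt) : E14_stmt := by
  intro p hp h7 h3 V hV
  have h5 : 5 ≤ p := by omega
  have h4 : (4 : ZMod p) ≠ 0 := four_ne h5
  have hpe : p ≠ 0 := by omega
  have hv : (red p V).natDegree ≤ 3 * hh p :=
    le_trans natDegree_map_le (E14_aux3 p V hV)
  have e1 := congrArg (eval 0) (hSTAR p h7 h3 V hV)
  have e2 := congrArg (eval 0) (hHW p h5)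
  rw [E14_aux4 h4 _ _ (natDegree_Wp h5)] at e2
  have hph : ∀ a : (ZMod p)[X], eval 0 (ph p X a) = 0 := by
    intro a
    have := map_ph p (evalRingHom (0 : ZMod p)) X a
    rw [coe_evalRingHom, eval_X] at this
    rw [this]
    exact ((hPHV p h5).2.2.2.2.2.2.2.2.2.2.1 _).1
  unfold Gm at e1
  simp only [eval_mul, eval_sub, eval_add, eval_pow, eval_X, eval_C, eval_one, eval_ofNat, hph,
    zero_pow hpe, zero_pow (mul_ne_zero two_ne_zero hpe), E14_aux4 h4 _ _ hv] at e1 e2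
  have h44 : (4 : ZMod p) ^ (3 * hh p) ≠ 0 := pow_ne_zero _ h4
  have h2 : (2 : ZMod p) ≠ 0 := by
    intro h
    apply h4
    have : (4 : ZMod p) = 2 * 2 := by norm_num
    rw [this, h, mul_zero]
  apply mul_left_cancel₀ (mul_ne_zero h2 h44)
  have e3 : (2 : ZMod p) * (3 / 2) = 3 := by field_simp
  linear_combination (-1) * e1 + (-6 * Q2 p + 3 * Q3 p) * e2 +
    (4 : ZMod p) ^ (3 * hh p) * (Wp p).eval (-1 / 4) * Q3 p * e3
end Pool.Agent.helper60.DA
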