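import Pool.Agent.helper60.DA.SpecV

set_option autoImplicit false

namespace Pool.Agent.helper60.DA

open Polynomial Finset Pool.Agent.helper60.DK

theorem RP_aux1 (p : ℕ) [Fact p.Prime] : ∀ m : ℕ,
    ((Rn p m).comp (-1 - X) = (-1) ^ (m + 1) * Rn p m ∧ (Rn p m).natDegree ≤ m - 1) ∧
    ((Rn p (m + 1)).comp (-1 - X) = (-1) ^ (m + 1 + 1) * Rn p (m + 1) ∧
      (Rn p (m + 1)).natDegree ≤ m + 1 - 1) := by
  intro m
  induction m with
  | zero =>
    refine ⟨⟨?_, ?_⟩, ?_, ?_⟩
    · simp [Rn]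
    · simp [Rn]
    · have : (2 : (ZMod p)[X]).comp (-1 - X) = 2 := by
        rw [show (2 : (ZMod p)[X]) = C 2 from rfl, C_comp]
      simp [Rn]
    · show (2 : (ZMod p)[X]).natDegree ≤ _
      rw [show (2 : (ZMod p)[X]) = C 2 from rfl, natDegree_C]
  | succ k ih =>
    obtain ⟨⟨h1, d1⟩, h2, d2⟩ := ih
    refine ⟨⟨h2, d2⟩, ?_, ?_⟩
    · rw [show Rn p (k + 1 + 1) = C (((k : ZMod p) + 2)⁻¹) * (C (2 * (k : ZMod p) + 3) * (1 + 2 * X)
        * Rn p (k + 1) - C ((k : ZMod p) + 1) * Rn p k) from rfl]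
      have e : ((1 : (ZMod p)[X]) + 2 * X).comp (-1 - X) = -(1 + 2 * X) := by
        rw [show (2 : (ZMod p)[X]) = C 2 from rfl]
        rw [add_comp, one_comp, mul_comp, C_comp, X_comp]
        rw [show (C 2 : (ZMod p)[X]) = 2 from rfl]
        ring
      rw [mul_comp, sub_comp, mul_comp, mul_comp, mul_comp, C_comp, C_comp, C_comp, e, h1, h2]
      ring
    · rw [show Rn p (k + 1 + 1) = C (((k : ZMod p) + 2)⁻¹) * (C (2 * (k : ZMod p) + 3) * (1 + 2 * X)
        * Rn p (k + 1) - C ((k : ZMod p) + 1) * Rn p k) from rfl]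
      refine le_trans (natDegree_C_mul_le _ _) ?_
      refine le_trans (natDegree_sub_le _ _) ?_
      apply max_le
      · refine le_trans natDegree_mul_le ?_
        have hd : (C (2 * (k : ZMod p) + 3) * (1 + 2 * X) : (ZMod p)[X]).natDegree ≤ 1 := by
          refine le_trans (natDegree_C_mul_le _ _) ?_
          rw [show (1 + 2 * X : (ZMod p)[X]) = C 2 * X + C 1 by
            rw [show (C 2 : (ZMod p)[X]) = 2 from rfl, C_1]; ring]
          exact natDegree_linear_le
        omega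
      · refine le_trans (natDegree_C_mul_le _ _) ?_
        omega

theorem RP : RP_stmt := fun p _ _ m _ => (RP_aux1 p m).1

end Pool.Agent.helper60.DA
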